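import Pool.Agent.Helper29.BE.Iter
import Pool.Agent.TH110.Zig.Primes

/-!
# Cunningham chains on average over the increments

A Cunningham chain is a sequence of primes with `q_{j+1} = 2 q_j + e_j`, where all `e_j` are `1` (first
kind) or all are `-1` (second kind). We consider all vectors `(e_0, ..., e_{r-1})` of odd increments with
`|e_j| ≤ 3 H`. For at least `c H ^ r / (log log log M) ^ r` of these vectors there is a chain of `r + 1`
primes `q_0, ..., q_r` with these increments, with `q_0 ≤ M`. Here `H` is between `M ^ 18` and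
`exp ((M / (2 log M)) ^ (1 / r))`, so that the first prime may be as small as about
`(log H) ^ r log log H`; and `q_0` can be taken from any given set `A` of primes whose relative density is
at least a power of `1 / log M`, if `(log H) ^ r ≤ |A|`.

The proof is the second moment method, with the sharp form of the upper bound sieve for prime pairs
and the moments of the singular factor over differences of the starting library
(`Pool.Agent.H197R2.PG`), in a form for vectors (`Pool.Agent.Helper29.BE.main2`).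
-/

set_option autoImplicit false

open Finset Filter Topology

namespace Pool.Agent.Results.MP_c183ae_nt.ChainsWithIncrements

/-- The vectors `(e_0, ..., e_{r-1})` of odd integers with `|e_j| ≤ 3 H` for which there is a chain of
primes `q_0, ..., q_r` with `q_{j+1} = 2 q_j + e_j` for all `j < r` and `q_0` in `A`. -/
def chains (r H : ℕ) (A : Set ℕ) : Set (Fin r → ℤ) :=
  {e | (∀ j, Odd (e j) ∧ |e j| ≤ 3 * H) ∧ ∃ q : ℕ → ℕ, q 0 ∈ A ∧ (∀ j ≤ r, (q j).Prime) ∧
    ∀ j : Fin r, (q (j + 1) : ℤ) = 2 * q j + e j}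

lemma chains_finite (r H : ℕ) (A : Set ℕ) : (chains r H A).Finite := by
  apply (Finset.finite_toSet
    (Fintype.piFinset (fun _ : Fin r => Icc (-(3 * H : ℤ)) (3 * H)))).subset
  rintro e ⟨h2, -⟩
  rw [mem_coe, Fintype.mem_piFinset]
  intro j
  rw [mem_Icc]
  exact abs_le.1 (h2 j).2

lemma chains_mono {r H : ℕ} {A B : Set ℕ} (h : A ⊆ B) : chains r H A ⊆ chains r H B := by
  rintro e ⟨h1, q, hq, h2⟩
  exact ⟨h1, q, h hq, h2⟩

/-- the constant terms of the forms `2 ^ j x + c_j` -/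
def cc {r : ℕ} (h : Fin r → ℕ) (j : ℕ) : ℕ :=
  if hj : 1 ≤ j ∧ j ≤ r then h ⟨j - 1, by omega⟩ + 1 else 0

lemma cc_zero {r : ℕ} (h : Fin r → ℕ) : cc h 0 = 0 := by
  unfold cc
  rw [dif_neg (by omega)]

lemma cc_succ {r : ℕ} (h : Fin r → ℕ) (j : Fin r) : cc h (j + 1) = h j + 1 := by
  have hj := j.2
  unfold cc
  rw [dif_pos (by omega)]
  rfl

/-- the increments -/
def inc {r : ℕ} (h : Fin r → ℕ) (j : Fin r) : ℤ := (cc h (j + 1) : ℤ) - 2 * cc h j

lemma inc_inj {r : ℕ} {h h' : Fin r → ℕ} (heq : inc h = inc h') : h = h' := by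
  have key : ∀ n : ℕ, n ≤ r → cc h n = cc h' n := by
    intro n
    induction n with
    | zero => intro _; rw [cc_zero, cc_zero]
    | succ n ih =>
      intro hn
      have h1 := ih (by omega)
      have h2 := congrFun heq ⟨n, by omega⟩
      unfold inc at h2
      simp only at h2
      omega
  funext j
  have h1 := key (j + 1) (by have := j.2; omega)
  rw [cc_succ, cc_succ] at h1
  omega

open Pool.Agent.Helper29.BE in
theorem general (r B : ℕ) (hr : 1 ≤ r) : ∃ (c : ℝ) (M₀ : ℕ), 0 < c ∧ ∀ M : ℕ, M₀ ≤ M →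
    ∀ A : Finset ℕ, (∀ p ∈ A, p.Prime ∧ p ≤ M) → (M : ℝ) ≤ Real.log M ^ B * #A →
    ∀ H : ℕ, M ^ 18 ≤ H → Real.log H ^ r ≤ #A →
    c * H ^ r / Real.log (Real.log (Real.log M)) ^ r ≤ ((chains r H A).ncard : ℝ) := by
  classical
  obtain ⟨c, hc, n₁, h⟩ := shiftsD2 r (B + 1) hr
  obtain ⟨n₂, hn₂⟩ := eventually_atTop.1 (tLog.eventually_ge_atTop (2 ^ (r + 2)))
  obtain ⟨P, hP⟩ : ∃ P : ℕ, P = 2 ^ (17 * (r + 1)) := ⟨_, rfl⟩
  refine ⟨c, n₁ + n₂ + P, hc, fun M hM A hA hMA H hH hHA => ?_⟩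
  have g1 := hn₂ M (by omega)
  have g0 : n₁ ≤ M := by omega
  have hM2 : 2 ^ (17 * (r + 1)) ≤ M := by omega
  clear hM
  have hM1 : 1 ≤ M := le_trans Nat.one_le_two_pow hM2
  obtain ⟨Y, hY⟩ : ∃ Y : ℕ, Y = 2 ^ r * M + 1 := ⟨_, rfl⟩
  have h2r : 1 ≤ 2 ^ r := Nat.one_le_two_pow
  have hMY : M ≤ Y := by
    have : 1 * M ≤ 2 ^ r * M := Nat.mul_le_mul_right _ h2r
    omega
  have hYM : Y ≤ 2 ^ (r + 1) * M := by
    have h1 : 1 * 1 ≤ 2 ^ r * M := Nat.mul_le_mul h2r hM1
    have h2 : 2 ^ (r + 1) * M = 2 ^ r * M + 2 ^ r * M := by ring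
    omega
  have hYH : Y ^ 17 ≤ H := by
    refine le_trans ?_ hH
    calc Y ^ 17 ≤ (2 ^ (r + 1) * M) ^ 17 := Nat.pow_le_pow_left hYM 17
      _ = 2 ^ (17 * (r + 1)) * M ^ 17 := by rw [mul_pow, ← pow_mul, mul_comm 17]
      _ ≤ M * M ^ 17 := Nat.mul_le_mul_right _ hM2
      _ = M ^ 18 := by ring
  have h1 := h M g0 Y H hMY hYH A (fun j t => 2 ^ ((j : ℕ) + 1) * t + 1) (fun _ => true) (by
      intro j t _ t' _ heq
      have e1 : 2 ^ ((j : ℕ) + 1) * t + 1 = 2 ^ ((j : ℕ) + 1) * t' + 1 := heq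
      have e2 : 2 ^ ((j : ℕ) + 1) * t = 2 ^ ((j : ℕ) + 1) * t' := by omega
      exact Nat.eq_of_mul_eq_mul_left (by positivity) e2) (by
      intro j t ht
      constructor
      · refine ⟨2 ^ (j : ℕ) * t, ?_⟩
        rw [pow_succ]
        ring
      · rw [hY]
        have e1 : 2 ^ ((j : ℕ) + 1) ≤ 2 ^ r :=
          Nat.pow_le_pow_right (by norm_num) (by have := j.2; omega)
        have e2 := Nat.mul_le_mul e1 (hA t ht).2
        omega) hHA (by
      have e1 : (Y : ℝ) ≤ 2 ^ (r + 1) * M := by exact_mod_cast hYM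
      have hl0 : 0 ≤ Real.log (M : ℝ) := Real.log_natCast_nonneg M
      calc 2 * (Y : ℝ) ≤ 2 * (2 ^ (r + 1) * M) := by linarith
        _ = 2 ^ (r + 2) * (M : ℝ) := by ring
        _ ≤ Real.log M * (Real.log M ^ B * #A) :=
            mul_le_mul g1 hMA (Nat.cast_nonneg M) hl0
        _ = Real.log M ^ (B + 1) * #A := by ring)
  refine h1.trans ?_
  apply Nat.cast_le.2
  have hinj : Set.InjOn (fun h : Fin r → ℕ => inc h)
      (Sh2 H A (fun (j : Fin r) t => 2 ^ ((j : ℕ) + 1) * t + 1) (fun _ => true) :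
        Set (Fin r → ℕ)) := fun a _ b _ hab => inc_inj hab
  rw [← card_image_of_injOn hinj, ← Set.ncard_coe_finset]
  apply Set.ncard_le_ncard _ (chains_finite r H A)
  intro e he
  rw [mem_coe, mem_image] at he
  obtain ⟨N, hN, rfl⟩ := he
  unfold Sh2 at hN
  rw [mem_filter, Fintype.mem_piFinset] at hN
  obtain ⟨b1, p, hp, b2⟩ := hN
  have b1' : ∀ j, 1 ≤ N j ∧ N j ≤ H ∧ Even (N j) := fun j => by
    have b3 := b1 j
    rw [mem_filter, mem_Icc] at b3
    exact ⟨b3.1.1, b3.1.2, b3.2⟩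
  have hccH : ∀ n, cc N n ≤ H + 1 := by
    intro n
    unfold cc
    split_ifs with h3
    · have := (b1' ⟨n - 1, by omega⟩).2.1
      omega
    · omega
  have hH2 : 2 ≤ H := by
    have h3 : 2 ^ (17 * (r + 1)) ≤ H := by
      calc 2 ^ (17 * (r + 1)) ≤ M := hM2
        _ = M ^ 1 := (pow_one M).symm
        _ ≤ M ^ 18 := Nat.pow_le_pow_right hM1 (by norm_num)
        _ ≤ H := hH
    calc 2 = 2 ^ 1 := by norm_num
      _ ≤ 2 ^ (17 * (r + 1)) := Nat.pow_le_pow_right (by norm_num) (by omega)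
      _ ≤ H := h3
  refine ⟨fun j => ⟨?_, ?_⟩, fun n => 2 ^ n * p + cc N n, ?_, ?_, ?_⟩
  · unfold inc
    rw [cc_succ]
    obtain ⟨u, hu⟩ := (b1' j).2.2
    refine ⟨(u : ℤ) - cc N j, ?_⟩
    rw [hu]
    push_cast
    ring
  · unfold inc
    have e1 := hccH (j + 1)
    have e2 := hccH j
    rw [abs_le]
    constructor <;> omega
  · change 2 ^ 0 * p + cc N 0 ∈ (A : Set ℕ)
    rw [cc_zero, pow_zero, one_mul, add_zero]
    exact mem_coe.2 hp
  · intro n hn
    rcases Nat.eq_zero_or_pos n with h0 | h0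
    · subst h0
      change (2 ^ 0 * p + cc N 0).Prime
      rw [cc_zero, pow_zero, one_mul, add_zero]
      exact (hA p hp).1
    · obtain ⟨m, rfl⟩ : ∃ m, n = m + 1 := ⟨n - 1, by omega⟩
      have b3 := b2 ⟨m, by omega⟩
      rw [if_pos rfl] at b3
      change (2 ^ (m + 1) * p + 1 + N ⟨m, by omega⟩).Prime at b3
      change (2 ^ (m + 1) * p + cc N (m + 1)).Prime
      have e1 := cc_succ N ⟨m, by omega⟩
      change cc N (m + 1) = N ⟨m, by omega⟩ + 1 at e1
      rw [e1]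
      have e2 : 2 ^ (m + 1) * p + (N ⟨m, by omega⟩ + 1) = 2 ^ (m + 1) * p + 1 + N ⟨m, by omega⟩ := by
        omega
      rw [e2]
      exact b3
  · intro j
    change ((2 ^ ((j : ℕ) + 1) * p + cc N (j + 1) : ℕ) : ℤ) =
      2 * ((2 ^ (j : ℕ) * p + cc N j : ℕ) : ℤ) + inc N j
    unfold inc
    push_cast
    ring

/-- the primes up to `M` -/
lemma primes_many : ∀ᶠ M : ℕ in atTop, (M : ℝ) / (2 * Real.log M) ≤
    (#((Icc 1 M).filter Nat.Prime) : ℝ) := by
  have h1 := Pool.Agent.TH110.Zig.pnt_window 1 1 (1 / 4) (by norm_num) (by norm_num)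
  filter_upwards [tendsto_natCast_atTop_atTop.eventually h1, eventually_ge_atTop 3] with M h2 hM
  have hM3 : (3 : ℝ) ≤ M := by exact_mod_cast hM
  have hlog : 0 < Real.log (M : ℝ) := Real.log_pos (by linarith)
  have a1 := h2 (M : ℝ) (by linarith) (by linarith)
  rw [Nat.floor_natCast] at a1
  have b1 := (abs_le.1 a1).1
  have h3 : Nat.primeCounting M ≤ #((Icc 1 M).filter Nat.Prime) := by
    rw [Nat.primeCounting, Nat.primeCounting', Nat.count_eq_card_filter_range]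
    apply card_le_card
    intro p hp
    rw [mem_filter, mem_range] at hp
    rw [mem_filter, mem_Icc]
    have := hp.2.two_le
    exact ⟨⟨by omega, by omega⟩, hp.2⟩
  have h4 : (Nat.primeCounting M : ℝ) ≤ #((Icc 1 M).filter Nat.Prime) := by exact_mod_cast h3
  have e1 : (M : ℝ) / (2 * Real.log M) = (M / Real.log M) / 2 := by field_simp
  have h7 : 0 ≤ M / Real.log (M : ℝ) := by positivity
  rw [e1]
  linarith

/-- **Chains of primes with given increments.** For every `r ≥ 1`: (1) for every `B` there are `c > 0`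
and `M₀` such that for all `M ≥ M₀`, every set `A` of primes `≤ M` with `M ≤ (log M) ^ B |A|` and every
`H ≥ M ^ 18` with `(log H) ^ r ≤ |A|`: for at least `c H ^ r / (log log log M) ^ r` of the vectors
`(e_0, ..., e_{r-1})` of odd integers with `|e_j| ≤ 3 H` there is a chain of primes `q_0, ..., q_r` with
`q_{j+1} = 2 q_j + e_j` and `q_0` in `A`; (2) there are `c > 0` and `M₀` such that this holds for all
`M ≥ M₀` and every `H ≥ M ^ 18` with `(log H) ^ r ≤ M / (2 log M)`, with a prime `q_0 ≤ M`. -/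
theorem result (r : ℕ) (hr : 1 ≤ r) :
    (∀ B : ℕ, ∃ (c : ℝ) (M₀ : ℕ), 0 < c ∧ ∀ M : ℕ, M₀ ≤ M →
      ∀ A : Finset ℕ, (∀ p ∈ A, p.Prime ∧ p ≤ M) → (M : ℝ) ≤ Real.log M ^ B * #A →
      ∀ H : ℕ, M ^ 18 ≤ H → Real.log H ^ r ≤ #A →
      c * H ^ r / Real.log (Real.log (Real.log M)) ^ r ≤ ((chains r H A).ncard : ℝ)) ∧
    ∃ (c : ℝ) (M₀ : ℕ), 0 < c ∧ ∀ M : ℕ, M₀ ≤ M → ∀ H : ℕ, M ^ 18 ≤ H →
      Real.log H ^ r ≤ M / (2 * Real.log M) →
      c * H ^ r / Real.log (Real.log (Real.log M)) ^ r ≤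
        ((chains r H {p | p.Prime ∧ p ≤ M}).ncard : ℝ) := by
  classical
  refine ⟨fun B => general r B hr, ?_⟩
  obtain ⟨c, n₁, hc, h⟩ := general r 2 hr
  obtain ⟨n₂, hn₂⟩ := eventually_atTop.1 (primes_many.and
    (Pool.Agent.Helper29.BE.tLog.eventually_ge_atTop 4))
  refine ⟨c, n₁ + n₂, hc, fun M hM H hH hHM => ?_⟩
  obtain ⟨g1, g2⟩ := hn₂ M (by omega)
  have hA1 : ∀ p ∈ (Icc 1 M).filter Nat.Prime, p.Prime ∧ p ≤ M := by
    intro p hp
    rw [mem_filter, mem_Icc] at hp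
    exact ⟨hp.2, hp.1.2⟩
  refine (h M (by omega) ((Icc 1 M).filter Nat.Prime) hA1 ?_ H hH (hHM.trans g1)).trans ?_
  · have h2 : (M : ℝ) = 2 * Real.log M * (M / (2 * Real.log M)) := by
      have : Real.log (M : ℝ) ≠ 0 := by linarith
      field_simp
    have h3 : 2 * Real.log (M : ℝ) ≤ Real.log M ^ 2 := by nlinarith
    calc (M : ℝ) = 2 * Real.log M * (M / (2 * Real.log M)) := h2
      _ ≤ Real.log M ^ 2 * #((Icc 1 M).filter Nat.Prime) :=
          mul_le_mul h3 g1 (by positivity) (by positivity)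
  · apply Nat.cast_le.2
    apply Set.ncard_le_ncard _ (chains_finite r H _)
    apply chains_mono
    intro p hp
    exact hA1 p (mem_coe.1 hp)

end Pool.Agent.Results.MP_c183ae_nt.ChainsWithIncrements
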