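import Pool.Agent.H225.EP3

/-!
# Exact patterns of consecutive almost prime Cunningham chains, at integers with restricted digits

The Cunningham chain of length `s` from `m`, of the first (`e = 1`) or second (`e = -1`) kind, are the
numbers `2^i (m + e) - e`, `i < s`.  Let `b ≥ 2` be a base and let the digits of an integer `n < b^K` be
restricted: the `i`-th digit belongs to a set `A i`, where the sets `A i` are arbitrary, depend on the
place `i < K`, and have the only property that the number `∏ |A i|` of these integers is at least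
`e^{-δK} b^K`, where the constant `δ > 0` does not depend on `b`.  Let `N` be an arbitrary base point up
to a fixed power of `b^K`, and `m = N + n`.  We consider ALL patterns `H` of `k` elements in an interval
`[0, c K^s]` such that the product of all elements of the chains from `n + h`, `h ∈ H`, has no fixed prime
divisor: the length of the pattern may be comparable to the expected mean distance of the starts of
chains of length `s` near `m`.

The number of the `n` such that chains of primes of length `s` start at all `m + h`, `h ∈ H`, is at most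
`C V(H) ∏ |A i|`, with the sieve product `V(H)` of the pattern.  And for at least `κ V(H) ∏ |A i|` of the
`n` the integers `j` in `[m, m + c K^s]` for which no element of the chain from `j` has a prime factor
`p ≤ b^{K/r}` are EXACTLY the `m + h`, `h ∈ H`, and then all elements of these chains have at most `r`
prime factors.  In particular no other chain of primes of length `s` starts in this interval.

The method is a Brun–Hooley sieve with weights, whose level of distribution is obtained from the Fourier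
transform of the set of the integers with restricted digits at rationals (large sieve in blocks of
digits), see `Pool/Agent/Y816/PD`; the other places are excluded by the upper bound for the patterns with
`k + 1` elements and an average of the sieve products (`Pool/Agent/H225/EP`).
-/

set_option autoImplicit false

namespace Pool.Agent.Results.MP_c183ae_nt.ExactPatterns

open Finset Filter Polynomial

/-- The element `|2^i (m + e) - e|` of the chain from `m`; first kind: `e = 1`, second kind: `e = -1`. -/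
def c (e : ℤ) (i m : ℕ) : ℕ := (2 ^ i * ((m : ℤ) + e) - e).natAbs

/-- `H` is admissible: the product of the elements of the chains of length `s` from the `n + h`,
`h ∈ H`, has no fixed prime divisor. -/
def Admissible (e : ℤ) (s : ℕ) (H : Finset ℕ) : Prop :=
  ∀ p : ℕ, p.Prime → ∃ n : ℕ, ∀ h ∈ H, ∀ i < s, ¬ p ∣ c e i (n + h)

open Classical in
/-- The number of the `n` modulo `p` for which `p` divides an element of the chain of length `s` from
one of the `n + h`, `h ∈ H`. -/
noncomputable def nu (e : ℤ) (s : ℕ) (H : Finset ℕ) (p : ℕ) : ℕ :=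
  ((range p).filter (fun n : ℕ => ∃ h ∈ H, ∃ i < s, p ∣ c e i (n + h))).card

/-- The product of `1 - nu p / p` over the primes `p ≤ x`. -/
noncomputable def V (e : ℤ) (s : ℕ) (H : Finset ℕ) (x : ℕ) : ℝ :=
  ∏ p ∈ (Icc 1 x).filter Nat.Prime, (1 - (nu e s H p : ℝ) / p)

open Classical in
/-- The number of the `n < b ^ K` in `T` whose `i`-th digit in base `b` belongs to `A i` for all
`i < K`. -/
noncomputable def count (b K : ℕ) (A : ℕ → Finset ℕ) (T : Set ℕ) : ℕ :=
  ((range (b ^ K)).filter (fun n => (∀ i < K, n / b ^ i % b ∈ A i) ∧ n ∈ T)).card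

/-- The number of choices of the digits. -/
noncomputable def choices (K : ℕ) (A : ℕ → Finset ℕ) : ℝ := ∏ i ∈ range K, ((A i).card : ℝ)

/-- All prime factors of `m` are larger than `z ^ (1 / r)`. -/
def Rough (r z m : ℕ) : Prop := ∀ p : ℕ, p.Prime → p ∣ m → z < p ^ r

open Pool.Agent.Y816.PD (NA ND ND_sub)
open Pool.Agent.W123.RU.Poly (Sys)
open Pool.Agent.W182.PW (lin lin_eval)
open Pool.Agent.TH977.PW (sys_lin)
open Pool.Agent.H225.EP (VV nuV exactV NT nt_lin)

/-- the leading coefficients -/
def al (s : ℕ) : Fin s → ℕ := fun i => 2 ^ (i : ℕ)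

/-- the constant terms -/
def be (e : ℤ) (s : ℕ) : Fin s → ℤ := fun i => e * (2 ^ (i : ℕ) - 1)

/-- the values -/
def v (e : ℤ) (s : ℕ) : Fin s → ℕ → ℕ := fun i m => c e i m

lemma al_inj (s : ℕ) : Function.Injective (al s) := fun i j hij =>
  Fin.ext (Nat.pow_right_injective le_rfl hij)

lemma sys {e : ℤ} (he : e = 1 ∨ e = -1) (s : ℕ) : Sys (fun i => lin (al s i) (be e s i)) := by
  refine sys_lin (al s) (be e s) (fun i => by unfold al; positivity) (fun i => ?_)
    (fun i j hij _ => al_inj s hij) (fun p hp => ?_)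
  · rcases he with rfl | rfl
    · refine ⟨1, -1, ?_⟩
      unfold al be
      push_cast
      ring
    · refine ⟨1, 1, ?_⟩
      unfold al be
      push_cast
      ring
  · -- the residue `-e`
    have key : ∃ n : ℕ, ∃ z : ℤ, (n : ℤ) = -e + p * z := by
      rcases he with rfl | rfl
      · refine ⟨p - 1, 1, ?_⟩
        rw [Nat.cast_sub hp.one_lt.le]
        push_cast
        ring
      · exact ⟨1, 0, by norm_num⟩
    obtain ⟨n, z, hn⟩ := key
    refine ⟨n, fun i hi => ?_⟩
    have e1 : ((al s i : ℕ) : ℤ) * (n : ℤ) + be e s i = p * (2 ^ (i : ℕ) * z) - e := by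
      unfold al be
      rw [hn]
      push_cast
      ring
    rw [e1] at hi
    have h1 : (p : ℤ) ∣ e := by
      have h2 := dvd_sub (Dvd.intro (2 ^ (i : ℕ) * z) rfl : (p : ℤ) ∣ p * (2 ^ (i : ℕ) * z)) hi
      rwa [sub_sub_cancel] at h2
    have h2 : (p : ℤ) ∣ 1 := by
      rcases he with rfl | rfl
      · exact h1
      · exact (dvd_neg.1 h1)
    have h3 : p ∣ 1 := by exact_mod_cast h2
    exact hp.one_lt.ne' (Nat.dvd_one.1 h3)

lemma hv (e : ℤ) (s : ℕ) (i : Fin s) (m : ℕ) :
    ((lin (al s i) (be e s i)).eval (m : ℤ)).natAbs = v e s i m := by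
  rw [lin_eval]
  unfold al be v c
  congr 1
  push_cast
  ring

lemma hge {e : ℤ} (he : e = 1 ∨ e = -1) (s : ℕ) (i : Fin s) (m : ℕ) (_ : (v e s i m).Prime) :
    m ≤ v e s i m := by
  unfold v c
  have h2 : (1 : ℤ) ≤ 2 ^ (i : ℕ) := one_le_pow₀ (by norm_num)
  rcases Nat.eq_zero_or_pos m with rfl | hm
  · exact Nat.zero_le _
  · have hm' : (1 : ℤ) ≤ m := by exact_mod_cast hm
    have h3 : (m : ℤ) ≤ 2 ^ (i : ℕ) * ((m : ℤ) + e) - e := by
      rcases he with rfl | rfl
      · nlinarith
      · nlinarith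
    omega

lemma V_eq (e : ℤ) (s : ℕ) (H : Finset ℕ) (x : ℕ) : VV (v e s) H x = V e s H x := by
  classical
  unfold VV V nuV nu
  refine prod_congr rfl fun p _ => ?_
  have e1 : (range p).filter (fun n : ℕ => ∃ h ∈ H, ∃ i, p ∣ v e s i (n + h)) =
      (range p).filter (fun n : ℕ => ∃ h ∈ H, ∃ i < s, p ∣ c e i (n + h)) := by
    refine filter_congr fun n _ => exists_congr fun h => and_congr_right fun _ => ?_
    exact ⟨fun ⟨i, hi⟩ => ⟨i, i.2, hi⟩, fun ⟨i, hi, hd⟩ => ⟨⟨i, hi⟩, hd⟩⟩
  congr 3
  convert congrArg Finset.card e1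

/-- **Exact patterns of consecutive almost prime Cunningham chains of both kinds, of any length, at
integers with restricted digits, uniformly in all admissible patterns with `k` elements and diameter up
to a small multiple of the expected mean distance of the chains.** -/
theorem result (e : ℤ) (he : e = 1 ∨ e = -1) (s k D : ℕ) (hs : 1 ≤ s) (hk : 1 ≤ k) :
    ∃ δ : ℝ, 0 < δ ∧ ∃ r₀ : ℕ, 2 ≤ r₀ ∧ ∀ r : ℕ, r₀ ≤ r → ∀ b : ℕ, 2 ≤ b →
      ∃ κ C c₀ : ℝ, 0 < κ ∧ 0 < C ∧ 0 < c₀ ∧
      ∀ᶠ K : ℕ in atTop, ∀ N : ℕ, N ≤ b ^ (D * K) →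
        ∀ H : Finset ℕ, H.card = k → (∀ h ∈ H, (h : ℝ) ≤ c₀ * (K : ℝ) ^ s) → Admissible e s H →
        ∀ A : ℕ → Finset ℕ, (∀ i < K, A i ⊆ range b) →
        (b : ℝ) ^ K ≤ Real.exp (δ * K) * choices K A →
        κ / (K : ℝ) ^ (s * k) ≤ V e s H (b ^ K) ∧
        ((∃ d ∈ A 0, ∀ h ∈ H, ∀ i < s, (c e i (N + d + h)).Coprime b) →
          (∃ d ∈ A (K - 1), d ≠ 0) →
          κ * choices K A * V e s H (b ^ K) ≤ count b K A {n | b ^ (K - 1) ≤ n ∧
            (∀ j : ℕ, (j : ℝ) ≤ c₀ * (K : ℝ) ^ s →
              ((∀ i < s, Rough r (b ^ K) (c e i (N + n + j))) ↔ j ∈ H)) ∧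
            ∀ h ∈ H, ∀ i < s, (c e i (N + n + h)).primeFactorsList.length ≤ r}) ∧
        (count b K A {n | ∀ h ∈ H, ∀ i < s, (c e i (N + n + h)).Prime} : ℝ) ≤
          C * choices K A * V e s H (b ^ K) := by
  obtain ⟨δ, hδ, r₀, hr₀, h⟩ := exactV hs (fun i => lin (al s i) (be e s i)) (sys he s)
    (nt_lin (al s) (be e s) (fun i => by unfold al; positivity) (al_inj s)) (v e s) (hv e s)
    (hge he s) k D hk
  refine ⟨δ, hδ, r₀, hr₀, fun r hr b hb => ?_⟩
  obtain ⟨κ, C, c₀, hκ, hC, hc, h1⟩ := h r hr b hb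
  refine ⟨κ, C, c₀, hκ, hC, hc, ?_⟩
  filter_upwards [h1] with K hK N hN H hHk hHc hadm A hA hprod
  obtain ⟨h2, h3, h4⟩ := hK N hN H hHk hHc (fun p hp => by
    obtain ⟨n, hn⟩ := hadm p hp
    exact ⟨n, fun h hh i => hn h hh i i.2⟩) A hA hprod
  rw [V_eq] at h2 h3 h4
  refine ⟨h2, fun hcop htop => ?_, ?_⟩
  · obtain ⟨d, hd, hcd⟩ := hcop
    refine (h3 ⟨d, hd, fun h hh i => hcd h hh i i.2⟩ htop).trans
      (Nat.cast_le.2 (ND_sub fun n _ hn1 hn2 => ⟨hn1, ?_⟩))
    obtain ⟨g1, g2, g3⟩ := hn2
    refine ⟨g1, fun j hj => ?_, fun h hh i hi => g3 h hh ⟨i, hi⟩⟩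
    rw [← g2 j hj]
    exact ⟨fun h i => h i i.2, fun h i hi => h ⟨i, hi⟩⟩
  · refine le_trans (Nat.cast_le.2 (ND_sub fun n _ hn1 hn2 => ⟨hn1, ?_⟩)) h4
    exact fun h hh i => hn2 h hh i i.2

end Pool.Agent.Results.MP_c183ae_nt.ExactPatterns
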