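import Pool.Agent.V11237.LP.Gap

set_option autoImplicit false

/-!
# Almost prime Cunningham chains of both kinds and every length: the primes they start at, the law after
these primes, and the gap laws in short intervals
-/

namespace Pool.Agent.Results.MP_c183ae_nt.LawsOfBothKinds

open Finset
open Pool.Agent.V11237.LP.Chain

/-- **Theorem.** Let `k ≥ 2` and let `c e j m = 2 ^ j (m + e) - e` be the terms of the Cunningham chain of
the first kind (`e = 1`) or of the second kind (`e = -1`) starting at `m`; an integer `n` is good if none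
of the terms `c e j n`, `j < k`, has a prime factor `p ≤ N ^ (1 / r)` (`a = 1`, `b = 0` in the
definitions). For `θ, δ > 0`, `δ ≤ 1`, `l₀`, `x₀` and `0 < ε ≤ 1` there is `r₀` such that for all `r ≥ r₀`
and all large `N`, for both kinds: (1) the good `n ≤ N` give chains of numbers with at most `r` prime factors, and `V > 0`; for all
`X ≥ N ^ θ` and all windows `(u, u + Y] ⊆ (0, X]` with `Y ≥ δ X`: (2) the number of the good `n` in the
window for which the first term is PRIME is `Y (V / U) / log X` up to a relative error `ε`; (3) for all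
`T` with `T V ≤ x₀` and every finite set `S` of integers, the number of these `n` for which the number of
the good `l` in `(n, n + T]` lies in `S` is `∑_{j ∈ S} e ^ (-T V) (T V) ^ j / j!` times the number of all
these `n`, up to at most `ε` times this number.
(4) In EVERY interval `(u, u + Y]` with `Y ≥ N ^ θ` and for all `l`, `T` with `l ≤ l₀` or `T V ≤ x₀` the
number of the good `n` with fewer than `l` good integers in `[n - T, n)` is
`Y V ∑_{j < l} e ^ (-T V) (T V) ^ j / j!` up to at most `ε Y V`. -/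
theorem result (k : ℕ) (hk : 2 ≤ k) (θ δ : ℝ) (hθ : 0 < θ) (hδ : 0 < δ) (hδ1 : δ ≤ 1) (l₀ : ℕ)
    (x₀ ε : ℝ) (hε : 0 < ε) (hε1 : ε ≤ 1) :
    ∃ r₀ : ℕ, 2 ≤ r₀ ∧ ∀ r : ℕ, r₀ ≤ r → ∃ N₀ : ℕ, ∀ N : ℕ, N₀ ≤ N → ∀ e : ℤ, e = 1 ∨ e = -1 →
      ((∀ n : ℕ, n ≤ N → Good e k 1 0 N r n →
          ∀ j < k, (c e j n).natAbs.primeFactorsList.length ≤ r) ∧
        0 < V e k 1 0 N r) ∧
      (∀ X : ℕ, (N : ℝ) ^ θ ≤ X → ∀ u Y : ℕ, δ * X ≤ Y → u + Y ≤ X →
        |((P e k 1 0 N r u Y).card : ℝ) * Real.log X - Y * (V e k 1 0 N r / U N r)| ≤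
          ε * (Y * (V e k 1 0 N r / U N r)) ∧
        ∀ T : ℕ, T * V e k 1 0 N r ≤ x₀ → ∀ S : Finset ℕ,
        |(((P e k 1 0 N r u Y).filter (fun n => Next e k 1 0 N r T n ∈ S)).card : ℝ) -
          (P e k 1 0 N r u Y).card *
            ∑ j ∈ S, Real.exp (-(T * V e k 1 0 N r)) * (T * V e k 1 0 N r) ^ j / j.factorial| ≤
          ε * (P e k 1 0 N r u Y).card) ∧
      ∀ u Y : ℕ, (N : ℝ) ^ θ ≤ Y → ∀ l T : ℕ, (l ≤ l₀ ∨ T * V e k 1 0 N r ≤ x₀) →
        |(G e k 1 0 N r l T u Y : ℝ) - Y * V e k 1 0 N r *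
          ∑ j ∈ range l, Real.exp (-(T * V e k 1 0 N r)) * (T * V e k 1 0 N r) ^ j / j.factorial| ≤
        ε * (Y * V e k 1 0 N r) := by
  have key : ∀ e : ℤ, (e = 1 ∨ e = -1) → _ := fun e he => law e he k 1 0 hk squarefree_one
    (fun j _ => by simpa using isCoprime_one_right) θ δ hθ hδ hδ1 x₀ ε hε hε1
  have key2 : ∀ e : ℤ, (e = 1 ∨ e = -1) → _ := fun e he => gaps e he k 1 0 hk one_pos
    (fun j _ => by simpa using isCoprime_one_right) θ hθ l₀ x₀ ε hε
  obtain ⟨r1, h1, H1⟩ := key 1 (Or.inl rfl)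
  obtain ⟨r2, h2, H2⟩ := key (-1) (Or.inr rfl)
  obtain ⟨r3, h3, H3⟩ := key2 1 (Or.inl rfl)
  obtain ⟨r4, h4, H4⟩ := key2 (-1) (Or.inr rfl)
  refine ⟨r1 + r2 + r3 + r4, by omega, ?_⟩
  intro r hr
  obtain ⟨N1, K1⟩ := H1 r (by omega)
  obtain ⟨N2, K2⟩ := H2 r (by omega)
  obtain ⟨N3, K3⟩ := H3 r (by omega)
  obtain ⟨N4, K4⟩ := H4 r (by omega)
  refine ⟨N1 + N2 + N3 + N4, ?_⟩
  intro N hN e he
  rcases he with rfl | rfl
  · obtain ⟨⟨g1, g2⟩, g3⟩ := K1 N (by omega)
    refine ⟨⟨fun n hn hg j hj => ?_, g2⟩, g3, K3 N (by omega)⟩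
    have := g1 n hn hg j hj
    simpa using this
  · obtain ⟨⟨g1, g2⟩, g3⟩ := K2 N (by omega)
    refine ⟨⟨fun n hn hg j hj => ?_, g2⟩, g3, K4 N (by omega)⟩
    have := g1 n hn hg j hj
    simpa using this

end Pool.Agent.Results.MP_c183ae_nt.LawsOfBothKinds
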