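import Pool.Agent.V11249.NP.Chain

/-!
# Arithmetic progressions of starting points of Cunningham chains, and the number of the chains in windows

`P s l A N` is the set of the starting points `n` in `(A, A + N]` of Cunningham chains of length `l` of the first kind
(`s = true`) or of the second kind (`s = false`). For every `k` the expected order of magnitude `N / log ^ l N` of
`|P s l A N|` is equivalent to the order `N D / log ^ (l k) N` of the number of the `k`-term arithmetic progressions
in `P s l A N` with differences up to `D`, for all `D` between a power of `log N` and `N`. The same holds for all sets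
of integers `n` of an interval of length `N` for which the terms of the chain have no prime factor `≤ N ^ κ`.
-/

set_option autoImplicit false

open Finset

namespace Pool.Agent.Results.MP_c183ae_nt.ProgressionsOfChains

/-- the `(i+1)`-st term of the sequence starting at `n`: `q ↦ 2 q + 1` (first kind) or `q ↦ 2 q - 1` (second kind) -/
def term (s : Bool) (n : ℕ) : ℕ → ℕ
  | 0 => n
  | i + 1 => if s then 2 * term s n i + 1 else 2 * term s n i - 1

/-- the starting points in `(A, A + N]` of the Cunningham chains of length `l` -/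
def P (s : Bool) (l A N : ℕ) : Finset ℕ := (Ioc A (A + N)).filter (fun n => ∀ i < l, (term s n i).Prime)

/-- all prime factors of the first `l` terms are larger than `N ^ κ` -/
def Rough (s : Bool) (l : ℕ) (κ : ℝ) (N n : ℕ) : Prop :=
  ∀ i < l, ∀ p : ℕ, p.Prime → p ∣ term s n i → (N : ℝ) ^ κ < p

open Classical in
/-- The number of the progressions `a, a + d, …, a + (k - 1) d` in `S` with `1 ≤ d ≤ D`. -/
noncomputable def AP (k D : ℕ) (S : Finset ℕ) : ℕ :=
  ((S ×ˢ Icc 1 D).filter (fun q => ∀ j < k, q.1 + j * q.2 ∈ S)).card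

theorem term_true (n i : ℕ) : term true n i = 2 ^ i * (n + 1) - 1 := by
  induction i with
  | zero => simp [term]
  | succ i ih =>
    show (if true then 2 * term true n i + 1 else 2 * term true n i - 1) = _
    rw [ih]
    have h : 1 ≤ 2 ^ i * (n + 1) := Nat.one_le_iff_ne_zero.2 (by positivity)
    have e : 2 ^ (i + 1) * (n + 1) = 2 * (2 ^ i * (n + 1)) := by ring
    rw [e]
    simp only [if_true]
    omega

theorem term_false {n : ℕ} (hn : 1 ≤ n) (i : ℕ) : term false n i = 2 ^ i * (n - 1) + 1 := by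
  induction i with
  | zero =>
    show n = 2 ^ 0 * (n - 1) + 1
    omega
  | succ i ih =>
    show (if false then 2 * term false n i + 1 else 2 * term false n i - 1) = _
    rw [ih]
    have e : 2 ^ (i + 1) * (n - 1) = 2 * (2 ^ i * (n - 1)) := by ring
    rw [e]
    simp only [Bool.false_eq_true, if_false]
    omega

/-- the sign -/
def sg (s : Bool) : ℤ := if s then 1 else -1

open Pool.Agent.V11249.NP.Chain (f ev_one ev_two sys)

theorem ev (s : Bool) (l : ℕ) (i : Fin l) {n : ℕ} (hn : 1 ≤ n) :
    (f l (sg s) i).eval (n : ℤ) = ((term s n i : ℕ) : ℤ) := by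
  cases s
  · rw [term_false hn]
    exact ev_two l i hn
  · rw [term_true]
    exact ev_one l i n

theorem rgh (s : Bool) (l : ℕ) (κ : ℝ) (N n : ℕ) (hn : 1 ≤ n) (h : Rough s l κ N n) :
    Pool.Agent.V11249.NP.Rgh (f l (sg s)) κ N n := by
  intro i p hp hd
  have hd' : (p : ℤ) ∣ (f l (sg s) i).eval (n : ℤ) := hd
  rw [ev s l i hn] at hd'
  exact h i i.isLt p hp (Int.natCast_dvd_natCast.1 hd')

theorem mem_P (s : Bool) (l A N n : ℕ) :
    n ∈ P s l A N ↔ (A < n ∧ n ≤ A + N) ∧ ∀ i, ((f l (sg s) i).eval (n : ℤ)).natAbs.Prime := by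
  unfold P
  rw [mem_filter, mem_Ioc]
  apply and_congr_right
  rintro ⟨hA, -⟩
  have hn : 1 ≤ n := by omega
  constructor
  · intro h i
    rw [ev s l i hn, Int.natAbs_natCast]
    exact h i i.isLt
  · intro h i hi
    have := h ⟨i, hi⟩
    rwa [ev s l ⟨i, hi⟩ hn, Int.natAbs_natCast] at this

/-- For both kinds `s`, every length `l` of the chains and every `k ≥ 1`:
(1) for `κ > 0` a set `S` of integers of an interval `(A, A + N]` at which the `l` terms have no prime factor
`≤ N ^ κ` contains at most `C N D / log ^ (l k) N` progressions of length `k` with differences at most `D`;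
(2) it contains at least `c N D / log ^ (l k) N` of them if it has at least `δ N / log ^ l N` elements, and it has
at least `c N / log ^ l N` elements if it contains at least `δ N D / log ^ (l k) N` of them, for all `D` between
`log ^ B N` and `N`;
(3), (4) the same for the set `P s l A N`, for all `A`. -/
theorem result (s : Bool) (l k : ℕ) (hk : 1 ≤ k) :
    (∀ κ : ℝ, 0 < κ → ∃ C : ℝ, 0 < C ∧ ∃ B N₀ : ℕ, ∀ N A D : ℕ, N₀ ≤ N → Real.log N ^ B ≤ D →
      ∀ S : Finset ℕ, S ⊆ Ioc A (A + N) → (∀ n ∈ S, Rough s l κ N n) →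
        (AP k D S : ℝ) ≤ C * (N * D / Real.log N ^ (l * k))) ∧
    (∀ κ δ : ℝ, 0 < κ → 0 < δ → ∃ c : ℝ, 0 < c ∧ ∃ B N₀ : ℕ, ∀ N A D : ℕ, N₀ ≤ N →
      Real.log N ^ B ≤ D → D ≤ N → ∀ S : Finset ℕ, S ⊆ Ioc A (A + N) → (∀ n ∈ S, Rough s l κ N n) →
        (δ * (N / Real.log N ^ l) ≤ S.card → c * (N * D / Real.log N ^ (l * k)) ≤ AP k D S) ∧
        (δ * (N * D / Real.log N ^ (l * k)) ≤ AP k D S → c * (N / Real.log N ^ l) ≤ S.card)) ∧
    (∃ C : ℝ, 0 < C ∧ ∃ B N₀ : ℕ, ∀ N A D : ℕ, N₀ ≤ N → Real.log N ^ B ≤ D →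
      (AP k D (P s l A N) : ℝ) ≤ C * (N * D / Real.log N ^ (l * k))) ∧
    (∀ δ : ℝ, 0 < δ → ∃ c : ℝ, 0 < c ∧ ∃ B N₀ : ℕ, ∀ N A D : ℕ, N₀ ≤ N → Real.log N ^ B ≤ D → D ≤ N →
      (δ * (N / Real.log N ^ l) ≤ (P s l A N).card → c * (N * D / Real.log N ^ (l * k)) ≤ AP k D (P s l A N)) ∧
      (δ * (N * D / Real.log N ^ (l * k)) ≤ AP k D (P s l A N) → c * (N / Real.log N ^ l) ≤ (P s l A N).card)) := by
  have hs : sg s = 1 ∨ sg s = -1 := by
    cases s
    · exact Or.inr rfl
    · exact Or.inl rfl
  have h := Pool.Agent.V11249.NP.transfer (f l (sg s)) (sys l (sg s) hs) (Rough s l) (P s l)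
    (fun κ N n hn h => rgh s l κ N n hn h) (mem_P s l) k hk
  exact h

end Pool.Agent.Results.MP_c183ae_nt.ProgressionsOfChains
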